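import Pool.Agent.Helper30.DL.GoalsD

/-!
MP_b4564f_an, packet EKN: `ek ≤ 0`.
-/

set_option autoImplicit false

open Complex (I)

namespace Pool.Agent.Helper65.DL

open Pool.Agent.Helper30.DL

lemma ex_mul_ex_neg (t : ℝ) : ex t 2 * ex t (-2) = 1 := by
  unfold ex
  rw [← Complex.exp_add, ← Complex.exp_zero]
  congr 1
  push_cast
  ring

lemma lam_re_im (t : ℝ) : (lam t).re = Real.cos (2 * t) ∧ (lam t).im = Real.sin (2 * t) := by
  have h : lam t = Complex.exp (((2 * t : ℝ) : ℂ) * I) := by
    unfold lam ex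
    congr 1
    push_cast
    ring
  rw [h]
  exact ⟨Complex.exp_ofReal_mul_I_re _, Complex.exp_ofReal_mul_I_im _⟩

/-- PACKET EKN. -/
theorem ekn : EknStmt := by
  intro P t ht ht'
  have hpi := Real.pi_pos
  have hpi4 : Real.pi ≤ 4 := Real.pi_le_four
  have h1 : kap t * lam t * Dm t 2 = kap t * ⟨0, js t 2 / 2⟩ := by
    have h2 : Dm t 2 = (⟨0, js t 2 / 2⟩ : ℂ) * ex t (-2) := by
      unfold Dm
      norm_num
    rw [h2]
    unfold lam
    linear_combination (kap t * ⟨0, js t 2 / 2⟩) * ex_mul_ex_neg t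
  have hs : 0 < Real.sin t := Real.sin_pos_of_pos_of_lt_pi ht (by linarith)
  have hs2 : 0 < Real.sin (2 * t) := Real.sin_pos_of_pos_of_lt_pi (by linarith) (by linarith)
  have hc : 0 < Real.cos t := Real.cos_pos_of_mem_Ioo ⟨by linarith, by linarith⟩
  have hc2 : 0 < Real.cos (2 * t) := Real.cos_pos_of_mem_Ioo ⟨by linarith, by linarith⟩
  have hph : 0 < ph t := div_pos hs ht
  have hdel : 0 < del t := mul_pos (by linarith) hph
  have hcs : 0 < cs t := hc
  have hiE : 0 < iE t := inv_pos.2 (by positivity)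
  have hjs : 0 < js t 2 := by
    unfold js
    push_cast
    exact div_pos (by linarith) hs2
  have hre : 0 ≤ (kap t * lam t * Dm t 2).re := by
    rw [h1]
    unfold kap
    simp only [Complex.mul_re, Complex.mul_im, (lam_re_im t).1, (lam_re_im t).2]
    have : 0 ≤ (iE t * del t * Real.sin (2 * t) + iE t * cs t * Real.cos (2 * t)) * js t 2 := by
      positivity
    nlinarith
  show -(th t * (ph t * (kap t * lam t * Dm t 2).re)) ≤ 0
  have hth : 0 < th t := by
    unfold th
    linarith
  have := mul_nonneg hth.le (mul_nonneg hph.le hre)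
  linarith

end Pool.Agent.Helper65.DL
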