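import Pool.Agent.Helper30.DL.GoalsB

/-!
MP_b4564f_an, packet NLB: the decrement of the functional.
-/

set_option autoImplicit false

open Complex (I)
open Finset

namespace Pool.Agent.Helper65.DL

open Pool.Agent.Helper30.DL

/-- PACKET NLB. -/
theorem nlb (hC : CstStmt) (hW : WndStmt) (hQ : QtotStmt) (hA : AbtotStmt) (hZ : ZgtotStmt)
    (hP : PtotStmt) (hCub : CubStmt) (hG : GrmStmt) (hE : EvlStmt) : NlbStmt := by
  intro k hk t ht P e g w hr hc hgg
  obtain ⟨hpos, -, -, -, -, -, -, -, -, -, -, -, -, -, -, hom, -⟩ := hC k hk t ht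
  obtain ⟨hZ1, -, -, -, -, hcon, -, -, hz0, hwk, hZX⟩ := hW k hk t ht (th t * g) w
  have hth : 0 < th t := by unfold th; linarith
  have hthC : ((th t : ℝ) : ℂ) ≠ 0 := by exact_mod_cast hth.ne'
  have hD : ∀ j, dt k t w j = th t * Dh k t w j := by
    intro j
    unfold Dh
    field_simp
  have hcon' : lam t ^ k * ((zt k t w k : ℝ) : ℂ)
      + (th t : ℂ) * ∑ j ∈ range k, lam t ^ j * ((Dh k t w j : ℝ) : ℂ) = 0 := by
    rw [← hcon, Finset.mul_sum]
    congr 1
    refine Finset.sum_congr rfl fun j _ => ?_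
    rw [hD j]
    push_cast
    ring
  have hz0' : zt k t w 0 = zt k t w k + th t * ∑ j ∈ range k, Dh k t w j := by
    rw [hz0, Finset.mul_sum]
    congr 1
    exact Finset.sum_congr rfl fun j _ => hD j
  obtain ⟨X, hX⟩ : ∃ X, X = Xf k t w := ⟨_, rfl⟩
  obtain ⟨U, hU⟩ : ∃ U, U = om t * X := ⟨_, rfl⟩
  obtain ⟨T, hT⟩ : ∃ T, T = 2 * U - ((th t * g : ℝ) : ℂ) := ⟨_, rfl⟩
  have eQ := hQ k hk t ht P g w
  have eA := hA k hk t ht P g w X U T (w k) (zt k t w k) hX hU hT rfl rfl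
  obtain ⟨eZ, eG⟩ := hZ k hk t ht e g w X U T hX hU hT
  have eP := hP k hk t ht P g X U hU
  have eC := hCub k hk t ht P X U (zt k t w k) hU
  have eR := hG k hk t ht P (zt k t w k) g (g * T.re) (g * T.im) (zt k t w 0) (Dh k t w)
    hr hc hgg hcon' hz0'
  have eE := hE P t e (w k) (zt k t w k) g X U T hU hT
  rw [← hX] at hwk hZX
  have hZ2 : Zf k t (nx k (pp t) (th t * g) w) = U - ((th t * g : ℝ) : ℂ) := by
    rw [hZ1, hZX, hU, hom]
    ring
  have eP' : Pf P t (Zf k t w) - Pf P t (Zf k t (nx k (pp t) (th t * g) w))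
      = Pf P t (ik t * X) - Pf P t (U - ((th t * g : ℝ) : ℂ)) := by
    rw [hZX, hZ2]
  rw [← hX, eE]
  rw [← hwk] at eC
  rw [Vf, Vf]
  have key := mul_le_mul_of_nonneg_left eR hth.le
  have eC' := congrArg (fun s => th t * s) eC
  linarith [key, eC', eQ, eA, eZ, eG, eP', eP]

end Pool.Agent.Helper65.DL
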